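import Mathlib

open Set Metric Filter Topology Complex
open scoped ComplexConjugate Real

namespace Pool.Agent.H.MP_9f272e_an

abbrev E := EuclideanSpace ℂ (Fin 2)

noncomputable def V (D : ℂ × ℂ) : ℝ := ‖D.1‖ ^ 2 + ‖D.2‖ ^ 2
def l (D : ℂ × ℂ) (x : E) : ℂ := D.1 * x 0 + D.2 * x 1
def m (D : ℂ × ℂ) (x : E) : ℂ := -conj D.2 * x 0 + conj D.1 * x 1
noncomputable def σ (D : ℂ × ℂ) : ℝ := √(V D - 1)
noncomputable def la (D : ℂ × ℂ) (x : E) : ℂ := σ D * m D x / (V D - l D x)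
noncomputable def om (D : ℂ × ℂ) (x : E) : ℂ := √(V D) * (l D x - 1) / (V D - l D x)
noncomputable def pt (D : ℂ × ℂ) (μ : ℂ) : E :=
  !₂[(conj D.1 - D.2 * σ D * μ) / V D, (conj D.2 + D.1 * σ D * μ) / V D]
def γ (D : ℂ × ℂ) : Set E := {x | ‖x‖ = 1 ∧ l D x = 1}
noncomputable def ch (D : ℂ × ℂ) (b : ℂ) : ℂ × ℂ :=
  ((D.1 - σ D / b * conj D.2) / V D, (D.2 + σ D / b * conj D.1) / V D)
noncomputable def g (D : ℂ × ℂ) (N : ℕ) (t : ℝ) (x : E) : ℂ := √N * om D x * (la D x ^ N * (la D x ^ N - t ^ N))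

variable {D : ℂ × ℂ} {x : E} {b μ : ℂ}

lemma lm (D : ℂ × ℂ) (x : E) : ‖l D x‖ ^ 2 + ‖m D x‖ ^ 2 = V D * ‖x‖ ^ 2 := by
  simp [l, m, V, EuclideanSpace.norm_sq_eq, Complex.sq_norm, normSq_apply]; ring

lemma Vc (D : ℂ × ℂ) : (V D : ℂ) = D.1 * conj D.1 + D.2 * conj D.2 := by simp [V, mul_conj, normSq_eq_norm_sq]

lemma γc (D : ℂ × ℂ) : IsCompact (γ D) := (isCompact_sphere (0 : E) 1).inter_right
  (isClosed_eq (f := l D) (by unfold l; fun_prop) (continuous_const (y := 1))) |>.of_isClosed_subset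
    ((isClosed_eq continuous_norm continuous_const).inter (isClosed_eq (by unfold l; fun_prop) continuous_const))
      fun x h => ⟨by simpa using h.1, h.2⟩

variable (h : 1 < V D)
include h

lemma σ2 : σ D ^ 2 = V D - 1 := Real.sq_sqrt (by linarith)

lemma σ0 : 0 < σ D := Real.sqrt_pos.2 (by linarith)

lemma sV : 1 < √(V D) ∧ √(V D) < V D := ⟨Real.lt_sqrt_of_sq_lt (by simpa), (Real.sqrt_lt' (by linarith)).2 (by nlinarith)⟩

lemma lb (hx : ‖x‖ ≤ 1) : ‖l D x‖ ≤ √(V D) := Real.le_sqrt_of_sq_le (by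
  nlinarith [lm D x, sq_nonneg ‖m D x‖, mul_le_of_le_one_right (by linarith : 0 ≤ V D)
    (pow_le_one₀ (norm_nonneg _) hx (n := 2))])

lemma den (hx : ‖x‖ ≤ 1) : (V D : ℂ) - l D x ≠ 0 := fun e => by
  have := lb h hx
  rw [← sub_eq_zero.1 e, norm_real, Real.norm_of_nonneg (by linarith)] at this
  linarith [(sV h).2]

lemma idn (hx : ‖x‖ ≤ 1) :
    ‖la D x‖ ^ 2 + ‖om D x‖ ^ 2 + (V D - 1) * V D * (1 - ‖x‖ ^ 2) / ‖V D - l D x‖ ^ 2 = 1 := by
  have := norm_ne_zero_iff.2 (den h hx)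
  have e := lm D x
  rw [la, om, norm_div, norm_div, norm_mul, norm_mul, norm_real, norm_real, div_pow, div_pow, mul_pow, mul_pow,
    Real.norm_eq_abs, Real.norm_eq_abs, sq_abs, sq_abs, σ2 h, Real.sq_sqrt (by linarith)]
  field_simp
  simp only [Complex.sq_norm, normSq_apply, sub_re, sub_im, ofReal_re, ofReal_im, one_re, one_im] at e ⊢
  linear_combination (V D - 1) * e

lemma le1 (hx : ‖x‖ ≤ 1) : ‖la D x‖ ^ 2 + ‖om D x‖ ^ 2 ≤ 1 := (le_add_of_nonneg_right (div_nonneg (mul_nonneg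
  (by nlinarith) (sub_nonneg.2 (pow_le_one₀ (norm_nonneg _) hx))) (sq_nonneg _))).trans_eq (idn h hx)

lemma lt1 (hx : ‖x‖ ≤ 1) (k : x ∉ γ D) : ‖la D x‖ < 1 := by
  by_contra! c
  have e := idn h hx
  have n := norm_pos_iff.2 (den h hx)
  have := one_le_pow₀ c (n := 2)
  have a : 0 ≤ (V D - 1) * V D * (1 - ‖x‖ ^ 2) / ‖V D - l D x‖ ^ 2 := div_nonneg (mul_nonneg
    (by nlinarith) (sub_nonneg.2 (pow_le_one₀ (norm_nonneg _) hx))) (sq_nonneg _)
  have a1 : om D x = 0 := norm_eq_zero.1 (pow_eq_zero_iff two_ne_zero |>.1 (by nlinarith [sq_nonneg ‖om D x‖]))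
  have a2 : (V D - 1) * V D * (1 - ‖x‖ ^ 2) / ‖V D - l D x‖ ^ 2 = 0 := by nlinarith [sq_nonneg ‖om D x‖]
  refine k ⟨?_, ?_⟩
  · rw [div_eq_zero_iff, or_iff_left (by positivity), mul_eq_zero, or_iff_right (by nlinarith), sub_eq_zero] at a2
    exact (pow_eq_one_iff_of_nonneg (norm_nonneg _) two_ne_zero).1 a2.symm
  · simpa [om, den h hx, sub_eq_zero, (zero_lt_one.trans (sV h).1).ne'] using a1

lemma lγ (k : x ∈ γ D) : om D x = 0 ∧ ‖la D x‖ = 1 := by
  have e := idn h k.1.le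
  have : om D x = 0 := by simp [om, k.2]
  exact ⟨this, (pow_eq_one_iff_of_nonneg (norm_nonneg _) two_ne_zero).1 (by
    simpa only [this, k.1, norm_zero, one_pow, sub_self, mul_zero, zero_div, add_zero, zero_pow two_ne_zero] using e)⟩

lemma lpt (μ : ℂ) : l D (pt D μ) = 1 ∧ m D (pt D μ) = σ D * μ := by
  have : (V D : ℂ) ≠ 0 := ofReal_ne_zero.2 (by linarith)
  simp only [l, m, pt, Matrix.cons_val_zero, Matrix.cons_val_one]
  field_simp
  rw [Vc]; constructor <;> ring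

lemma npt (μ : ℂ) : V D * ‖pt D μ‖ ^ 2 = 1 + (V D - 1) * ‖μ‖ ^ 2 := by
  rw [← lm, (lpt h μ).1, (lpt h μ).2, norm_mul, mul_pow, norm_real, Real.norm_eq_abs, sq_abs, σ2 h]; simp

lemma pt1 : (‖μ‖ < 1 ↔ ‖pt D μ‖ < 1) ∧ (‖μ‖ = 1 → pt D μ ∈ γ D) := by
  have := npt h μ
  refine ⟨?_, fun e => ⟨?_, (lpt h μ).1⟩⟩
  · rw [← sq_lt_one_iff₀ (norm_nonneg _), ← sq_lt_one_iff₀ (norm_nonneg (pt D μ))]
    constructor <;> intro <;> nlinarith
  · rw [← sq_eq_sq₀ (norm_nonneg _) zero_le_one]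
    refine mul_left_cancel₀ (by linarith : V D ≠ 0) ?_
    rw [this, e]; ring

lemma sur (k : l D x = 1) : x = pt D (m D x / σ D) := by
  have : (V D : ℂ) ≠ 0 := ofReal_ne_zero.2 (by linarith)
  have : (σ D : ℂ) ≠ 0 := ofReal_ne_zero.2 (σ0 h).ne'
  rw [l] at k
  ext i; fin_cases i <;> simp [pt, m] <;> field_simp <;> rw [Vc]
  · linear_combination conj D.1 * k
  · linear_combination conj D.2 * k

lemma chl (b0 : b ≠ 0) (hx : ‖x‖ ≤ 1) : l (ch D b) x = 1 ↔ la D x = b := by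
  have : (V D : ℂ) ≠ 0 := ofReal_ne_zero.2 (by linarith)
  rw [la, div_eq_iff (den h hx), show l (ch D b) x = (l D x * b + σ D * m D x) / (V D * b) by
    simp only [l, m, ch]; field_simp; ring, div_eq_one_iff_eq (by simp [*])]
  constructor <;> intro e <;> linear_combination e

lemma chV (b0 : b ≠ 0) (b1 : ‖b‖ < 1) : 1 < V (ch D b) := by
  have : V (ch D b) = (1 + (V D - 1) / ‖b‖ ^ 2) / V D := by
    rw [show (V D - 1) / ‖b‖ ^ 2 = ‖σ D / b‖ ^ 2 by simp [div_pow, σ2 h], eq_div_iff (by linarith), V, ch]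
    generalize (σ D : ℂ) / b = s
    simp only [norm_div, norm_real, Real.norm_of_nonneg (by linarith : 0 ≤ V D)]
    have : V D ≠ 0 := by linarith
    field_simp
    simp [V, Complex.sq_norm, normSq_apply]; ring
  rw [this, lt_div_iff₀ (by linarith), one_mul, ← sub_lt_iff_lt_add', lt_div_iff₀ (by positivity)]
  exact mul_lt_of_lt_one_right (by linarith) (pow_lt_one₀ (norm_nonneg _) b1 two_ne_zero)

lemma anc (b0 : b ≠ 0) (b1 : ‖b‖ < 1) : ∃ μ, ‖μ‖ < 1 ∧ pt D b = pt (ch D b) μ := by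
  have := (pt1 h).1.1 b1
  have e := sur (chV h b0 b1) ((chl h b0 this.le).2 (by
    rw [la, (lpt h b).1, (lpt h b).2, ← mul_assoc, ← sq, ← ofReal_pow, σ2 h]
    push_cast
    exact mul_div_cancel_left₀ _ (by exact_mod_cast (sub_pos.2 h).ne')))
  exact ⟨_, (pt1 (chV h b0 b1)).1.2 (e ▸ this), e⟩

lemma lad (hx : ‖x‖ ≤ 1) : DifferentiableAt ℂ (la D) x ∧ DifferentiableAt ℂ (om D) x := by
  have c (i : Fin 2) : Differentiable ℂ fun p : E => p i := (EuclideanSpace.proj (𝕜 := ℂ) i).differentiable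
  have := den h hx
  unfold la om m l at *
  constructor <;> fun_prop (disch := assumption)

lemma gd (N : ℕ) (t : ℝ) (hx : ‖x‖ ≤ 1) : DifferentiableAt ℂ (g D N t) x := by
  have := lad h hx
  have a := this.1
  have b := this.2
  unfold g
  fun_prop

lemma gs {N : ℕ} {t : ℝ} (t0 : 0 ≤ t) (t1 : t ≤ 1) (hx : ‖x‖ ≤ 1) :
    ‖g D N t x‖ ≤ 2 ∧ ‖g D N t x‖ ≤ 2 * (N * ‖la D x‖ ^ N) := by
  have e := le1 h hx
  have a1 : ‖la D x‖ ≤ 1 := (sq_le_one_iff₀ (norm_nonneg _)).1 (by nlinarith [sq_nonneg ‖om D x‖])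
  have o1 : ‖om D x‖ ≤ 1 := (sq_le_one_iff₀ (norm_nonneg _)).1 (by nlinarith [sq_nonneg ‖la D x‖])
  have a : ‖la D x ^ N - t ^ N‖ ≤ 2 := (norm_sub_le _ _).trans (by
    rw [norm_pow, norm_pow, norm_real, Real.norm_of_nonneg t0]
    linarith [pow_le_one₀ (norm_nonneg _) a1 (n := N), pow_le_one₀ t0 t1 (n := N)])
  have k : ‖g D N t x‖ ≤ 2 * (√N * ‖om D x‖ * ‖la D x‖ ^ N) := by
    rw [g, norm_mul, norm_mul, norm_mul, norm_pow, norm_real, Real.norm_of_nonneg (Real.sqrt_nonneg _)]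
    exact (mul_le_mul_of_nonneg_left (mul_le_mul_of_nonneg_left a (by positivity)) (by positivity)).trans_eq (by ring)
  refine ⟨k.trans (mul_le_of_le_one_right zero_le_two ((sq_le_one_iff₀ (by positivity)).1 ?_)), k.trans ?_⟩
  · have y (n : ℕ) : n * (1 - ‖la D x‖ ^ 2) * (‖la D x‖ ^ 2) ^ n ≤ 1 - (‖la D x‖ ^ 2) ^ n := by
      have := pow_le_one₀ (norm_nonneg _) a1 (n := 2)
      have := sq_nonneg ‖la D x‖
      generalize ‖la D x‖ ^ 2 = y at *
      induction n with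
      | zero => simp
      | succ n ih =>
        have := mul_le_mul_of_nonneg_left ih this
        have := mul_nonneg (sub_nonneg.2 ‹y ≤ 1›) (sub_nonneg.2 (pow_le_one₀ ‹0 ≤ y› ‹y ≤ 1› (n := n + 1)))
        push_cast; ring_nf at *; linarith
    rw [mul_pow, mul_pow, Real.sq_sqrt N.cast_nonneg, ← pow_mul, mul_comm N, pow_mul]
    exact le_trans (by gcongr; linarith) ((y N).trans (sub_le_self _ (by positivity)))
  · gcongr
    exact (mul_le_of_le_one_right (Real.sqrt_nonneg _) o1).trans (Real.sqrt_le_iff.2 ⟨N.cast_nonneg, by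
      exact_mod_cast Nat.le_self_pow two_ne_zero N⟩)

omit h in
lemma bin {θ : ℂ} (k : ‖1 - θ‖ ≤ 1) (n : ℕ) : ‖(1 - θ) ^ n - (1 - n * θ)‖ ≤ (n * ‖θ‖) ^ 2 / 2 := by
  induction n with
  | zero => simp
  | succ n ih =>
  rw [show (1 - θ) ^ (n + 1) - (1 - (n + 1 : ℕ) * θ) = (1 - θ) * ((1 - θ) ^ n - (1 - n * θ)) + n * θ ^ 2 by
    push_cast; ring]
  refine (norm_add_le _ _).trans ?_
  rw [norm_mul, norm_mul, norm_pow, norm_natCast]
  push_cast
  nlinarith [mul_le_of_le_one_left (norm_nonneg ((1 - θ) ^ n - (1 - n * θ))) k, sq_nonneg ‖θ‖]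

lemma bump {N : ℕ} {t : ℝ} (t0 : 0 ≤ t) (N1 : 1 ≤ N) (ht : 32 ≤ N * (1 - t)) (hx : ‖x‖ = 1) (e : la D x ^ N = t ^ N) :
    ∃ r : ℝ, 1 - 1 / N ≤ r ∧ r ≤ 1 - (1 - √(V D) / V D) / (2 * N) ∧ (t ^ N) ^ 2 / 8 ≤ ‖g D N t ((r : ℂ) • x)‖ := by
  have N1 : (1 : ℝ) ≤ N := by exact_mod_cast N1
  have d := norm_pos_iff.2 (den h hx.le)
  obtain ⟨r, r1, hr⟩ := intermediate_value_Icc' zero_le_one (f := fun r : ℝ => (1 - r) * V D * (2 * N) - ‖V D - r * l D x‖)
    (by fun_prop) (show 0 ∈ _ by simp [abs_of_pos (zero_lt_one.trans h)]; nlinarith)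
  have n : ‖(r : ℂ) • x‖ ≤ 1 := by simpa [norm_smul, hx, abs_of_nonneg r1.1] using r1.2
  have e1 : l D ((r : ℂ) • x) = r * l D x := by simp [l]; ring
  have e2 : m D ((r : ℂ) • x) = r * m D x := by simp [m]; ring
  have d' := den h n
  have b := lb h n
  have s := sV h
  rw [e1] at d' b
  have hr : ‖V D - r * l D x‖ = (1 - r) * V D * (2 * N) := (sub_eq_zero.1 hr).symm
  have u := norm_sub_le (V D : ℂ) (r * l D x)
  have v := norm_sub_norm_le (V D : ℂ) (r * l D x)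
  rw [hr, norm_real, Real.norm_of_nonneg (by linarith)] at u v
  refine ⟨r, ?_, ?_, ?_⟩
  · rw [sub_le_comm, le_div_iff₀ (by linarith)]; nlinarith
  · rw [le_sub_comm, div_le_iff₀ (by linarith), sub_le_comm, le_div_iff₀ (by linarith)]; linarith
  obtain ⟨θ, hθ⟩ : ∃ θ : ℂ, θ = (1 - r : ℝ) * V D / (V D - r * l D x) := ⟨_, rfl⟩
  have r0 : 1 - r ≠ 0 := fun e => d' (norm_eq_zero.1 (by rw [hr, e]; simp))
  have V0 : V D ≠ 0 := by linarith
  have nθ : N * ‖θ‖ = 1 / 2 := by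
    rw [hθ, norm_div, hr, ← ofReal_mul, norm_real, Real.norm_of_nonneg (mul_nonneg (by linarith [r1.2]) (by linarith))]
    field_simp
  have dd := den h hx.le
  have θ1 : 1 - θ = r * (V D - l D x) / (V D - r * l D x) := by rw [hθ]; push_cast; field_simp; ring
  have a1 : la D ((r : ℂ) • x) = la D x * (1 - θ) := by rw [θ1, la, la, e1, e2]; field_simp
  have sq : (√(V D) : ℂ) ^ 2 = V D := by rw [← ofReal_pow, Real.sq_sqrt (by linarith)]
  have s0 : (√(V D) : ℂ) ≠ 0 := ofReal_ne_zero.2 (by linarith)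
  have a2 : om D ((r : ℂ) • x) = om D x - θ * (l D x / √(V D) * (1 + om D x / √(V D))) := by
    rw [hθ, om, om, e1]; push_cast
    generalize (√(V D) : ℂ) = w at *
    field_simp
    rw [← sq]; ring
  have k : ‖1 - θ‖ ≤ 1 := by
    rw [θ1, norm_div, div_le_one (norm_pos_iff.2 d'), ← sq_le_sq₀ (norm_nonneg _) (norm_nonneg _)]
    have := (re_le_norm _).trans (b.trans s.2.le)
    simp only [Complex.sq_norm, normSq_apply, sub_re, sub_im, ofReal_re, ofReal_im, re_ofReal_mul, im_ofReal_mul] at this ⊢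
    have := (re_le_norm _).trans ((lb h hx.le).trans s.2.le)
    nlinarith [mul_nonneg (mul_nonneg (sub_nonneg.2 r1.2) (by linarith : 0 ≤ V D))
      (show 0 ≤ V D * (1 + r) - 2 * (r * (l D x).re) by nlinarith [r1.1])]
  have B := bin k N
  rw [nθ] at B
  have n1 : ‖(N : ℂ) * θ‖ = 1 / 2 := by rw [norm_mul, norm_natCast, nθ]
  have X1 : 3 / 8 ≤ ‖(1 - θ) ^ N‖ := by
    linarith [norm_sub_norm_le (1 - N * θ) ((1 - θ) ^ N), norm_sub_rev (1 - N * θ) ((1 - θ) ^ N),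
      norm_sub_norm_le 1 (N * θ), norm_one (α := ℂ)]
  have X2 : 3 / 8 ≤ ‖(1 - θ) ^ N - 1‖ := by
    have := norm_sub_le ((1 - θ) ^ N - (1 - N * θ)) ((1 - θ) ^ N - 1)
    rw [show (1 - θ) ^ N - (1 - N * θ) - ((1 - θ) ^ N - 1) = N * θ by ring] at this
    linarith
  have i := idn h hx.le
  have lt : ‖la D x‖ = t := (pow_left_inj₀ (norm_nonneg _) t0 (by exact_mod_cast (by linarith : (N : ℝ) ≠ 0))).1
    (by simpa [abs_of_nonneg t0] using congrArg norm e)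
  rw [hx, lt, one_pow, sub_self, mul_zero, zero_div, add_zero] at i
  have o1 : ‖om D x‖ ≤ 1 := (sq_le_one_iff₀ (norm_nonneg _)).1 (by nlinarith)
  have sN := Real.sq_sqrt (N.cast_nonneg (α := ℝ))
  have o2 : 2 ≤ √N * ‖om D x‖ := (sq_le_sq₀ zero_le_two (by positivity)).1 (by rw [mul_pow, sN]; nlinarith)
  have o3 : ‖l D x / √(V D) * (1 + om D x / √(V D))‖ ≤ 1 * 2 := by
    rw [norm_mul]
    refine mul_le_mul ?_ ((norm_add_le _ _).trans ?_) (norm_nonneg _) zero_le_one <;>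
      rw [norm_div, norm_real, Real.norm_of_nonneg (by linarith)]
    · exact (div_le_one (by linarith)).2 (lb h hx.le)
    · linarith [norm_one (α := ℂ), div_le_self (norm_nonneg (om D x)) s.1.le]
  have o4 : 1 ≤ √N * ‖om D ((r : ℂ) • x)‖ := by
    have := norm_sub_norm_le (om D x) (θ * (l D x / √(V D) * (1 + om D x / √(V D))))
    rw [← a2, norm_mul] at this
    have q : √N ≤ N := Real.sqrt_le_iff.2 ⟨by linarith, by nlinarith⟩
    nlinarith [mul_le_mul_of_nonneg_left this (Real.sqrt_nonneg N), mul_le_mul_of_nonneg_right q (norm_nonneg θ),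
      mul_le_mul_of_nonneg_left o3 (show 0 ≤ √N * ‖θ‖ by positivity)]
  rw [g, a1, mul_pow, e, ← mul_sub_one, norm_mul, norm_mul, norm_mul, norm_mul, norm_mul, norm_pow, norm_real,
    norm_real, Real.norm_of_nonneg t0, Real.norm_of_nonneg (Real.sqrt_nonneg _)]
  refine le_trans ?_ (le_mul_of_one_le_left (by positivity) o4)
  nlinarith [mul_le_mul X1 X2 (by norm_num) (norm_nonneg _), sq_nonneg (t ^ N)]

omit h in
lemma har {H : ℂ → ℂ} {y : ℂ} {R : ℝ} (d : DifferentiableOn ℂ H (ball y R)) (p : ∀ z ∈ ball y R, 0 ≤ (H z).re)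
    (R0 : 0 < R) (k : ‖b - y‖ ≤ R / 2) : (H b).re ≤ 3 * (H y).re := le_of_forall_pos_le_add fun η η0 => by
  have mt : MapsTo (y + ·) (ball 0 R) (ball y R) := fun z k => by simpa using k
  have := p y (mem_ball_self R0)
  have := (re_le_norm _).trans ((norm_neg _).trans_le (borelCaratheodory_zero (f := fun z => H y - H (y + z))
    (M := (H y).re + η / 2) (by positivity) ((d.comp (by fun_prop) mt).const_sub _) (fun z k => by
      simp only [mem_ofPred_eq, sub_re]; linarith [p _ (mt k)]) R0 (z := b - y) (by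
        rw [mem_ball_zero_iff]; linarith) (by simp)))
  rw [le_div_iff₀ (by linarith)] at this
  simp only [add_sub_cancel, neg_re, sub_re] at this
  by_contra! c
  nlinarith [mul_le_mul_of_nonneg_left k (show 0 ≤ (H y).re + η / 2 by positivity)]

omit h in
lemma mp {F : Type} [NormedAddCommGroup F] [NormedSpace ℂ F] [Nontrivial F] {H : F → ℂ} {t a : ℝ} (t0 : 0 < t)
    (d : DiffContOnCl ℂ H (ball 0 t)) (p : ∀ z, ‖z‖ = t → a ≤ (H z).re) {z : F} (k : ‖z‖ ≤ t) : a ≤ (H z).re := by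
  have := norm_le_of_forall_mem_frontier_norm_le isBounded_ball (C := rexp (-a)) (z := z)
    (differentiable_exp.comp_diffContOnCl d.neg) (fun z k => by
      rw [frontier_ball _ t0.ne', mem_sphere_zero_iff_norm] at k
      simpa [norm_exp] using p z k) (by simpa [closure_ball _ t0.ne'])
  simpa [norm_exp] using this

omit h in
lemma lat {N : ℕ} (N0 : 0 < N) (y : ℂ) : ∃ b : ℂ, b ^ N = (‖y‖ : ℂ) ^ N ∧ ‖b - y‖ ≤ ‖y‖ * (4 / N) := by
  have : (N : ℂ) ≠ 0 := by exact_mod_cast N0.ne'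
  refine ⟨y * exp (I * (-arg (y ^ N) / N : ℝ)), ?_, ?_⟩
  · rw [mul_pow, ← exp_nat_mul, ← ofReal_pow, ← norm_pow]
    nth_rw 1 [← norm_mul_exp_arg_mul_I (y ^ N)]
    rw [mul_assoc, ← Complex.exp_add]
    push_cast; field_simp; simp
  · rw [← mul_sub_one, norm_mul]
    gcongr
    refine Real.norm_exp_I_mul_ofReal_sub_one_le.trans ?_
    rw [norm_div, norm_neg, Real.norm_natCast]
    gcongr
    exact (abs_arg_le_pi _).trans Real.pi_le_four

end Pool.Agent.H.MP_9f272e_an
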