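import Pool.Agent.H.MP_9f272e_an.A

open Set Metric Filter Topology Complex
open scoped ComplexConjugate Real

namespace Pool.Agent.H.MP_9f272e_an

def Pos (h : E → ℂ) : Prop := DiffContOnCl ℂ h (ball 0 1) ∧ ∀ x, ‖x‖ ≤ 1 → 0 ≤ (h x).re

def Lo (P : Finset (ℂ × ℂ)) (t a : ℝ) (h : E → ℂ) : Prop := ∀ D ∈ P, ∀ μ, ‖μ‖ ≤ t → a ≤ (h (pt D μ)).re

noncomputable def c : ℝ := ((1 / 2) ^ 64) ^ 2 / 8

structure St (P C : Finset (ℂ × ℂ)) (f : E → ℂ) (ε β κ ρ : ℝ) (O : Set E) : Prop where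
  v : ∀ D ∈ P ∪ C, 1 < V D
  j : (↑(P ∪ C) : Set (ℂ × ℂ)).PairwiseDisjoint γ
  o : ∀ D ∈ P ∪ C, O ∈ 𝓝ˢ (γ D)
  d : ∀ x, ‖x‖ ≤ 1 → DifferentiableAt ℂ f x ∧ ‖f x‖ ≤ 2 + ε
  s : ∀ D ∈ P ∪ C, ∀ x ∈ γ D, ‖f x‖ < ε
  b : ∃ R < 1, ∀ D ∈ C, ∀ x ∈ γ D, ∃ r ∈ Icc ρ R, c - ε < ‖f ((r : ℂ) • x)‖
  u : ∃ t < 1, ∀ h, Pos h → ∀ a a', 0 ≤ a → a ≤ a' → Lo C t a' h → Lo P t a h → β * (a' - κ * (a' - a)) ≤ (h 0).re

variable {P C : Finset (ℂ × ℂ)} {f : E → ℂ} {ε β κ ρ η R0 : ℝ} {O : Set E}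

lemma dpt {h : E → ℂ} (p : Pos h) {D : ℂ × ℂ} (v : 1 < V D) : DifferentiableOn ℂ (fun μ => h (pt D μ)) (ball 0 1) :=
  p.1.1.comp ((differentiable_piLp 2).2 fun i => by fin_cases i <;> simp [pt] <;> fun_prop).differentiableOn
    fun μ k => mem_ball_zero_iff.2 ((pt1 v).1.1 (mem_ball_zero_iff.1 k))

lemma level (S : St P C f ε β κ ρ O) (ρ0 : 0 ≤ ρ) (ρ1 : ρ < 1) (η0 : 0 < η) (η1 : η < c) (R1 : R0 < 1) :
    ∃ C' f', St P C' f' (ε + η) β (2 / 3 * κ) ρ O ∧ ∀ x, ‖x‖ ≤ R0 → ‖f' x - f x‖ ≤ η := by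
  classical
  obtain ⟨R, R2, hR⟩ := S.b
  obtain ⟨t0, t2, H⟩ := S.u
  have vP D (k : D ∈ P) := S.v D (Finset.mem_union_left _ k)
  obtain ⟨s, hs, sd⟩ := Set.PairwiseDisjoint.exists_mem_filter (l := fun D => 𝓝ˢ (γ D)) (fun D a D' b e =>
    disjoint_nhdsSet_nhdsSet (γc D).isClosed (γc D').isClosed (S.j a b e)) (P ∪ C).finite_toSet
  set W := fun D => interior (s D ∩ O ∩ {x | ‖f x‖ < ε} ∩ {x | max R0 R < ‖x‖}) with hW
  have γW D (k : D ∈ P) : γ D ⊆ W D := subset_interior_iff_mem_nhdsSet.2 (inter_mem (inter_mem (inter_mem (hs D)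
    (S.o D (Finset.mem_union_left _ k))) (mem_nhdsSet_iff_forall.2 fun x a => (S.d x a.1.le).1.continuousAt.norm.eventually_lt_const
      (S.s D (Finset.mem_union_left _ k) x a))) (mem_nhdsSet_iff_forall.2 fun x a =>
        continuous_norm.continuousAt.eventually_const_lt ((max_lt R1 R2).trans_eq a.1.symm)))
  obtain ⟨q, ⟨hq, q0⟩, q1⟩ := (((P.eventually_all.2 fun D k => ((isCompact_closedBall (0 : E) 1).diff (isOpen_interior
    (s := s D ∩ O ∩ {x | ‖f x‖ < ε} ∩ {x | max R0 R < ‖x‖}))).eventually_forall_of_forall_eventually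
      (P := fun q x => ‖la D x‖ < q) (x₀ := 1) fun x a => ContinuousAt.eventually_lt (f := fun z : ℝ × E => ‖la D z.2‖)
        ((lad (vP D k) (mem_closedBall_zero_iff.1 a.1)).1.continuousAt.comp_of_eq continuousAt_snd rfl).norm
          continuousAt_fst (lt1 (vP D k) (mem_closedBall_zero_iff.1 a.1) fun b => a.2 (γW D k b))).and
            (lt_mem_nhds (max_lt one_pos t2))).filter_mono nhdsWithin_le_nhds |>.and self_mem_nhdsWithin
              (f := 𝓝[<] 1)).exists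
  obtain ⟨q0, q2⟩ := max_lt_iff.1 q0
  have l1 (a : ℝ) : Tendsto (fun k : ℕ => 1 - a / k) atTop (𝓝 1) := by
    simpa using (tendsto_const_div_atTop_nhds_zero_nat a).const_sub 1
  obtain ⟨k, ⟨⟨k1, k2⟩, k3⟩, k0⟩ := (((((tendsto_self_mul_const_pow_of_lt_one q0.le q1).comp (tendsto_id.const_mul_atTop'
    (r := 64) (by simp))).eventually_lt_const (show 0 < η / (P.card + 1) / 2 by positivity)).and
      ((l1 (1 / 2)).eventually_const_lt q1)).and ((l1 (1 / 64)).eventually_const_lt ρ1) |>.and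
        (eventually_ge_atTop 1)).exists
  have k0' : (1 : ℝ) ≤ k := by exact_mod_cast k0
  obtain ⟨t, ht⟩ : ∃ t : ℝ, t = 1 - 1 / 2 / k := ⟨_, rfl⟩
  obtain ⟨N, hN⟩ : ∃ N, N = 64 * k := ⟨_, rfl⟩
  simp only [← ht, Function.comp, id, ← hN] at k1 k2
  have t1 : t < 1 := ht ▸ sub_lt_self _ (by positivity)
  have tp := q0.trans k2
  have N0 : 0 < N := by omega
  have e1 : N * (1 - t) = 32 := by rw [ht, hN]; push_cast; field_simp; ring
  have τ : c ≤ (t ^ N) ^ 2 / 8 := by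
    have := one_add_mul_le_pow (a := -(1 / 2 / k : ℝ)) (by linarith) k
    rw [← sub_eq_add_neg, ← ht, show (k : ℝ) * -(1 / 2 / k) = -(1 / 2) by field_simp] at this
    rw [c, hN, mul_comm 64, pow_mul]
    gcongr; linarith
  set T := (Polynomial.nthRoots N ((t : ℂ) ^ N)).toFinset
  have mT {b} : b ∈ T ↔ b ^ N = t ^ N := Multiset.mem_toFinset.trans (Polynomial.mem_nthRoots N0)
  have nT {b} (a : b ∈ T) : ‖b‖ = t := (pow_left_inj₀ (norm_nonneg _) tp.le N0.ne').1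
    (by simpa [abs_of_pos tp] using congrArg norm (mT.1 a))
  have b0 {b} (a : b ∈ T) : b ≠ 0 := norm_pos_iff.1 (nT a ▸ tp)
  have nw {D b x} (k : D ∈ P) (a : b ∈ T) (e : x ∈ γ (ch D b)) : la D x = b ∧ x ∈ W D :=
    have := (chl (vP D k) (b0 a) e.1.le).1 e.2
    ⟨this, by_contra fun w => (hq D k x ⟨mem_closedBall_zero_iff.2 e.1.le, w⟩).not_ge (by rw [this, nT a]; exact k2.le)⟩
  have cs {D} : D ∈ P ∪ (C ∪ (P ×ˢ T).image fun p => ch p.1 p.2) → D ∈ P ∪ C ∨ ∃ D' ∈ P, ∃ b ∈ T, ch D' b = D := by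
    simp only [Finset.mem_union, Finset.mem_image, Finset.mem_product]
    rintro (a | a | ⟨p, a, e⟩)
    exacts [.inl (.inl a), .inl (.inr a), .inr ⟨p.1, a.1, p.2, a.2, e⟩]
  have wd {D D' x} (k : D ∈ P) (k' : D' ∈ P ∪ C) (a : x ∈ W D) (b : x ∈ s D') : D = D' := by_contra fun e =>
    disjoint_left.1 (sd (Finset.mem_union_left _ k) k' e) (interior_subset a).1.1.1 b
  have sm {x} (hx : ‖x‖ ≤ 1) {Q} (hQ : Q ⊆ P) (h : ∀ D ∈ Q, x ∈ W D → g D N t x = 0) : ‖∑ D ∈ Q, g D N t x‖ < η := by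
    refine ((norm_sum_le _ _).trans (Finset.sum_le_card_nsmul _ _ (η / (P.card + 1)) fun D k => ?_)).trans_lt ?_
    · by_cases w : x ∈ W D
      · rw [h D k w, norm_zero]; positivity
      have := pow_le_pow_left₀ (norm_nonneg _) (hq D (hQ k) x ⟨mem_closedBall_zero_iff.2 hx, w⟩).le N
      nlinarith [(gs (vP D (hQ k)) tp.le t1.le hx (N := N)).2, N.cast_nonneg (α := ℝ)]
    · have : (Q.card : ℝ) ≤ P.card := by exact_mod_cast Finset.card_le_card hQ
      rw [nsmul_eq_mul, ← mul_div_assoc, div_lt_iff₀ (by positivity)]; nlinarith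
  have sm' {x D} (hx : ‖x‖ ≤ 1) (k : D ∈ P) (w : x ∈ W D) : ‖∑ D ∈ P, g D N t x - g D N t x‖ < η := by
    rw [← Finset.sum_erase_eq_sub k]
    exact sm hx (P.erase_subset D) fun D' a b => absurd (wd (Finset.mem_of_mem_erase a) (Finset.mem_union_left _ k) b
      (interior_subset w).1.1.1) (Finset.ne_of_mem_erase a)
  have in0 {x} (hx : ‖x‖ ≤ max R0 R) := sm (hx.trans (max_lt R1 R2).le) subset_rfl fun D _ w =>
    absurd (interior_subset w).2 hx.not_gt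
  choose! μ μ1 μe using fun (p : (ℂ × ℂ) × ℂ) (k : p ∈ P ×ˢ T) => anc (vP _ (Finset.mem_product.1 k).1)
    (b0 (Finset.mem_product.1 k).2) ((nT (Finset.mem_product.1 k).2).trans_lt t1)
  obtain ⟨t', ⟨h1, h2⟩, t3⟩ := (((((P ×ˢ T).eventually_all.2 fun p k => lt_mem_nhds (μ1 p k)).and
    (lt_mem_nhds (show (1 + t) / 2 < 1 by linarith))).filter_mono nhdsWithin_le_nhds).and
      (self_mem_nhdsWithin (s := Iio 1))).exists
  obtain ⟨R', ⟨h3, h4⟩, R3⟩ := ((((P.eventually_all.2 fun D k => lt_mem_nhds (show 1 - (1 - √(V D) / V D) / (2 * N) < 1 from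
    sub_lt_self _ (div_pos (sub_pos.2 ((div_lt_one (zero_lt_one.trans (vP D k))).2 (sV (vP D k)).2)) (by positivity)))).and
      (lt_mem_nhds R2)).filter_mono nhdsWithin_le_nhds).and (self_mem_nhdsWithin (s := Iio 1))).exists
  have nd {D b D'} (k : D ∈ P) (a : b ∈ T) (k' : D' ∈ P ∪ C) : Disjoint (γ (ch D b)) (γ D') := disjoint_left.2 fun x u v => by
    obtain rfl := wd k k' (nw k a u).2 (subset_of_mem_nhdsSet (hs D') v)
    exact t1.ne (by rw [← nT a, ← (nw k a u).1, (lγ (vP D k) v).2])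
  refine ⟨C ∪ (P ×ˢ T).image fun p => ch p.1 p.2, fun x => f x + ∑ D ∈ P, g D N t x, ⟨fun D k => ?_, fun D a D' b e => ?_,
    fun D k => ?_, fun x hx => ⟨(S.d x hx).1.add (.fun_sum fun D k => gd (vP D k) N t hx), ?_⟩, fun D k x a => ?_,
      ⟨R', R3, fun D k x a => ?_⟩, t', t3, fun h p a a' a0 a1 L1 L2 => ?_⟩, fun x hx => by
        simpa using (in0 (hx.trans (le_max_left _ _))).le⟩
  · replace k := cs k
    obtain k | ⟨D, k, b, a, rfl⟩ := k
    exacts [S.v D k, chV (vP D k) (b0 a) ((nT a).trans_lt t1)]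
  · obtain a | ⟨D, k, a, a', rfl⟩ := cs a <;> obtain b | ⟨D', k', b, b', rfl⟩ := cs b
    exacts [S.j a b e, (nd k' b' a).symm, nd k a' b, disjoint_left.2 fun x u v => by
      obtain rfl := wd k (Finset.mem_union_left _ k') (nw k a' u).2 (interior_subset (nw k' b' v).2).1.1.1
      exact e (by rw [← (nw k a' u).1, (nw k b' v).1])]
  · replace k := cs k
    obtain k | ⟨D, k, b, a, rfl⟩ := k
    exacts [S.o D k, mem_nhdsSet_iff_forall.2 fun x u => mem_of_superset (isOpen_interior.mem_nhds (nw k a u).2)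
      fun y v => (interior_subset v).1.1.2]
  · refine (norm_add_le _ _).trans ?_
    by_cases w : ∃ D ∈ P, x ∈ W D
    · obtain ⟨D, k, w⟩ := w
      have : ‖f x‖ < ε := (interior_subset w).1.2
      linarith [sm' hx k w, (gs (vP D k) tp.le t1.le hx (N := N)).1, norm_sub_norm_le (∑ D ∈ P, g D N t x) (g D N t x)]
    · linarith [(S.d x hx).2, sm hx subset_rfl fun D k a => absurd ⟨D, k, a⟩ w]
  · refine (norm_add_le _ _).trans_lt ?_
    replace k := cs k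
    obtain k | ⟨D, k, b, u, rfl⟩ := k
    · refine add_lt_add (S.s D k x a) (sm a.1.le subset_rfl fun D' k' w => ?_)
      obtain rfl := wd k' k w (subset_of_mem_nhdsSet (hs D) a)
      simp [g, (lγ (vP _ k') a).1]
    · refine add_lt_add (interior_subset (nw k u a).2).1.2 (sm a.1.le subset_rfl fun D' k' w => ?_)
      obtain rfl := wd k' (Finset.mem_union_left _ k) w (interior_subset (nw k u a).2).1.1.1
      simp [g, (nw k u a).1, mT.1 u]
  · obtain k | k := Finset.mem_union.1 k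
    · obtain ⟨r, u, v⟩ := hR D k x a
      have := in0 (x := (r : ℂ) • x) (le_max_of_le_right (by simpa [norm_smul, a.1, abs_of_nonneg (ρ0.trans u.1)] using u.2))
      exact ⟨r, ⟨u.1, u.2.trans h4.le⟩, by linarith [norm_le_add_norm_add (f ((r : ℂ) • x)) (∑ D ∈ P, g D N t ((r : ℂ) • x))]⟩
    obtain ⟨⟨D, b⟩, k', rfl⟩ := Finset.mem_image.1 k
    obtain ⟨k, u⟩ : D ∈ P ∧ b ∈ T := Finset.mem_product.1 k'
    obtain ⟨r, r1, r2, r3⟩ := bump (vP D k) tp.le N0 e1.ge a.1 (by rw [(nw k u a).1, mT.1 u])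
    have r1 : ρ ≤ r := k3.le.trans (le_of_eq_of_le (by rw [hN]; push_cast; field_simp) r1)
    have r2 := r2.trans (h3 D k).le
    have n : ‖(r : ℂ) • x‖ ≤ 1 := by simpa [norm_smul, a.1, abs_of_nonneg (ρ0.trans r1)] using r2.trans R3.le
    have w : (r : ℂ) • x ∈ W D := by_contra fun w => by
      have := sm n (Finset.singleton_subset_iff.2 k) fun D' a b => absurd (Finset.mem_singleton.1 a ▸ b) w
      rw [Finset.sum_singleton] at this; linarith
    have : ‖f ((r : ℂ) • x)‖ < ε := (interior_subset w).1.2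
    refine ⟨r, ⟨r1, r2⟩, ?_⟩
    linarith [sm' n k w, norm_sub_norm_le (g D N t ((r : ℂ) • x)) (∑ D ∈ P, g D N t ((r : ℂ) • x)),
      norm_sub_rev (g D N t ((r : ℂ) • x)) (∑ D ∈ P, g D N t ((r : ℂ) • x)),
      norm_le_add_norm_add' (f ((r : ℂ) • x)) (∑ D ∈ P, g D N t ((r : ℂ) • x))]
  refine le_of_eq_of_le (by ring) (H h p (a + (a' - a) / 3) a' (by linarith) (by linarith) (fun D k z u =>
    L1 D (Finset.mem_union_left _ k) z (by linarith)) fun D k z u => mp tp ((dpt p (vP D k)).diffContOnCl_ball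
      (closedBall_subset_ball t1)) (fun y v => ?_) (by linarith))
  obtain ⟨b, u, w⟩ := lat N0 y
  rw [v] at u w
  have n z (k : z ∈ ball y ((1 - t) / 2)) : ‖z‖ ≤ (1 + t) / 2 := by linarith [norm_sub_norm_le z y, mem_ball_iff_norm.1 k]
  have m : (D, b) ∈ P ×ˢ T := Finset.mem_product.2 ⟨k, mT.2 u⟩
  have := har (H := fun z => h (pt D z) - a) (b := b) (((dpt p (vP D k)).mono fun z k => mem_ball_zero_iff.2
    (by linarith [n z k])).sub_const _) (fun z q => by simpa using L2 D k z (by linarith [n z q])) (by linarith)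
      (w.trans (by rw [← mul_div_assoc, div_le_iff₀ (by positivity)]; linarith))
  have q := L1 _ (Finset.mem_union_right _ (Finset.mem_image_of_mem _ m)) _ (h1 _ m).le
  rw [← μe _ m] at q
  simp only [sub_re, ofReal_re] at this
  linarith

end Pool.Agent.H.MP_9f272e_an
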