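import Pool.Agent.H.MP_9f272e_an.B

open Set Metric Filter Topology Complex MeasureTheory
open scoped ComplexConjugate Real CompactlySupported Pointwise

namespace Pool.Agent.H.MP_9f272e_an

lemma hb {X : Type} [TopologicalSpace X] [CompactSpace X] (A : Set ((X → ℝ) × ℝ)) (ad : ∀ p ∈ A, ∀ q ∈ A, p + q ∈ A)
    (sm : ∀ a : ℝ, ∀ p ∈ A, a • p ∈ A) (cn : ∀ M, (fun _ => M, M) ∈ A) {K : Set X} {κ : ℝ}
    (H : ∀ p ∈ A, ∀ s, 0 ≤ s → (∀ x, 0 ≤ p.1 x) → (∀ x ∈ K, s ≤ p.1 x) → κ * s ≤ p.2) : ∃ Λ : C_c(X, ℝ) →ₗ[ℝ] ℝ,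
      ∀ u s, 0 ≤ s → ∀ p ∈ A, (∀ x, u x ≤ p.1 x) → (∀ x ∈ K, u x + s ≤ p.1 x) → Λ u ≤ p.2 - κ * s := by
  let Z (u : C_c(X, ℝ)) := {t | ∃ s, 0 ≤ s ∧ ∃ p ∈ A, (∀ x, u x ≤ p.1 x) ∧ (∀ x ∈ K, u x + s ≤ p.1 x) ∧ t = p.2 - κ * s}
  have lb u M (b : ∀ x, -M ≤ u x) : -M ∈ lowerBounds (Z u) := fun t ⟨s, s0, h, d, a, k, e⟩ => by
    have := H _ (ad _ d _ (cn M)) s s0 (fun x => by simp; linarith [a x, b x]) fun x p => by simp; linarith [k x p, b x]
    simp at this; linarith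
  have bd u : (Z u).Nonempty ∧ BddBelow (Z u) := by
    obtain ⟨M, b⟩ := isCompact_univ.exists_bound_of_continuousOn (map_continuous u).continuousOn
    have b x := abs_le.1 (b x trivial)
    exact ⟨⟨_, 0, le_rfl, _, cn M, fun x => (b x).2, fun x _ => by simpa using (b x).2, rfl⟩,
      _, lb u M fun x => (b x).1⟩
  have hm a (a0 : 0 < a) u : sInf (Z (a • u)) ≤ a * sInf (Z u) := by
    rw [← div_le_iff₀' a0]
    refine le_csInf (bd u).1 fun t ⟨s, s0, h, d, p, k, e⟩ => (div_le_iff₀' a0).2 (csInf_le (bd _).2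
      ⟨a * s, by positivity, _, sm a _ d, fun x => ?_, fun x q => ?_, by simp [e]; ring⟩)
    · simpa using mul_le_mul_of_nonneg_left (p x) a0.le
    · simpa [mul_add] using mul_le_mul_of_nonneg_left (k x q) a0.le
  have A1 : ∀ a : ℝ, 0 < a → ∀ u, sInf (Z (a • u)) = a * sInf (Z u) := fun a a0 u => (hm a a0 u).antisymm (by
    have := hm a⁻¹ (by positivity) (a • u)
    rwa [inv_smul_smul₀ a0.ne', ← div_eq_inv_mul, le_div_iff₀' a0] at this)
  have A2 u v : sInf (Z (u + v)) ≤ sInf (Z u) + sInf (Z v) := by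
    rw [← sub_le_iff_le_add]
    refine le_csInf (bd u).1 fun t ⟨s, s0, h, d, p, k, e⟩ => sub_le_comm.1 (le_csInf (bd v).1
      fun t' ⟨s', s0', h', d', p', k', e'⟩ => sub_le_iff_le_add'.2 (csInf_le (bd _).2 ⟨s + s', by positivity, _,
        ad _ d _ d', fun x => add_le_add (p x) (p' x), fun x q => ?_, by simp [e, e']; ring⟩))
    exact le_of_eq_of_le (add_add_add_comm _ _ _ _) (add_le_add (k x q) (k' x q))
  have A3 : 0 ≤ sInf (Z 0) := le_csInf (bd 0).1 fun t k => by simpa using lb 0 0 (by simp) k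
  have A4 u t (k : t ∈ Z u) : sInf (Z u) ≤ t := csInf_le (bd u).2 k
  obtain ⟨N, hN⟩ : ∃ N : C_c(X, ℝ) → ℝ, ∀ u, sInf (Z u) = N u := ⟨_, fun _ => rfl⟩
  simp only [hN] at A1 A2 A3 A4
  obtain ⟨Λ, -, hΛ⟩ := exists_extension_of_le_sublinear (⊥ : C_c(X, ℝ) →ₗ.[ℝ] ℝ) N A1 A2 fun x =>
    A3.trans_eq (by rw [(Submodule.mem_bot ℝ).1 x.2])
  exact ⟨Λ, fun u s s0 h d a k => (hΛ u).trans (A4 _ _ ⟨s, s0, h, d, a, k, rfl⟩)⟩

lemma rep {K : Set E} (hK : IsClosed K) {κ : ℝ} (κ0 : 0 < κ) (H : ∀ h : E → ℂ, DiffContOnCl ℂ h (ball 0 1) → ∀ s, 0 ≤ s →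
    (∀ x, ‖x‖ = 1 → 0 ≤ (h x).re) → (∀ x ∈ K, ‖x‖ = 1 → s ≤ (h x).re) → κ * s ≤ (h 0).re) :
    ∃ μ : Measure E, IsFiniteMeasure μ ∧ μ (sphere 0 1)ᶜ = 0 ∧ (∀ g : E → ℂ, ContinuousOn g (closedBall 0 1) →
      DifferentiableOn ℂ g (ball 0 1) → ∫ z, g z ∂μ = g 0) ∧ μ (sphere 0 1 ∩ K) ≠ 0 := by
  obtain ⟨Λ, up⟩ := hb {p | ∃ h : E → ℂ, DiffContOnCl ℂ h (ball 0 1) ∧
    p = (fun x : sphere (0 : E) 1 => (h x).re, (h 0).re)} (by
      rintro _ ⟨h, d, rfl⟩ _ ⟨h', d', rfl⟩; exact ⟨_, d.add d', rfl⟩) (by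
        rintro a _ ⟨h, d, rfl⟩; exact ⟨_, d.const_smul (a : ℂ), by ext <;> simp⟩)
    (fun M => ⟨fun _ => M, diffContOnCl_const, rfl⟩) (K := (↑) ⁻¹' K) (κ := κ) (by
      rintro _ ⟨h, d, rfl⟩ s s0 a b
      exact H h d s s0 (fun x q => a ⟨x, by simpa⟩) fun x p q => b ⟨x, by simpa⟩ p)
  replace up u s s0 h d := up u s s0 _ ⟨h, d, rfl⟩
  let L := PositiveLinearMap.mk₀ Λ fun u k => by
    simpa using up (-u) 0 le_rfl 0 diffContOnCl_const (fun x => by simpa using k x) fun x _ => by simpa using k x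
  have me := MeasurableEmbedding.subtype_coe (isClosed_sphere (x := (0 : E)) (ε := 1)).measurableSet
  have sb : sphere (0 : E) 1 ⊆ closure (ball 0 1) := closure_ball (0 : E) one_ne_zero ▸ sphere_subset_closedBall
  have cg {h : E → ℂ} (d : DiffContOnCl ℂ h (ball 0 1)) : Continuous fun x : sphere (0 : E) 1 => h x :=
    (d.2.mono sb).domRestrict
  have re {h : E → ℂ} (d : DiffContOnCl ℂ h (ball 0 1)) : ∫ x : sphere (0 : E) 1, (h x).re ∂(RealRMK.rieszMeasure L) = (h 0).re := by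
    let u : C_c(sphere (0 : E) 1, ℝ) := ⟨⟨_, continuous_re.comp (cg d)⟩, HasCompactSupport.of_compactSpace _⟩
    refine (RealRMK.integral_rieszMeasure L u).trans (le_antisymm (a := Λ u) ?_ ?_)
    · simpa using up u 0 le_rfl h d (fun x => le_rfl) fun x _ => (add_zero _).le
    · simpa using up (-u) 0 le_rfl _ d.neg (fun x => le_rfl) fun x _ => (add_zero _).le
  refine ⟨(RealRMK.rieszMeasure L).map (↑), inferInstance, by simp [me.map_apply], fun g c d => ?_, fun k => ?_⟩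
  · have d : DiffContOnCl ℂ g (ball 0 1) := ⟨d, by rwa [closure_ball _ one_ne_zero]⟩
    have i := (cg d).integrable_of_hasCompactSupport (μ := RealRMK.rieszMeasure L) (HasCompactSupport.of_compactSpace _)
    rw [me.integral_map]
    refine Complex.ext ((integral_re i).symm.trans (re d)) ((integral_im i).symm.trans ?_)
    simpa using re (d.const_smul (-I))
  rw [me.map_apply, Subtype.preimage_coe_self_inter, (hK.preimage continuous_subtype_val).isCompact.measure_eq_biInf_integral_hasCompactSupport] at k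
  refine k.not_gt ((ENNReal.ofReal_pos.2 κ0).trans_le (le_iInf₂ fun f c => le_iInf₂ fun a b => le_iInf fun p =>
    ENNReal.ofReal_le_ofReal (le_of_le_of_eq (b := Λ ⟨⟨f, c⟩, a⟩) ?_ (RealRMK.integral_rieszMeasure L ⟨⟨f, c⟩, a⟩).symm)))
  simpa using up (-⟨⟨f, c⟩, a⟩) 1 zero_le_one 0 diffContOnCl_const (fun x => by simpa using p x) fun x q => by
    simp [b q]

variable {P C : Finset (ℂ × ℂ)} {f : E → ℂ} {ε β κ ρ η R0 : ℝ} {O : Set E}

lemma iter (S : St P C f ε β 1 ρ O) (ρ0 : 0 ≤ ρ) (ρ1 : ρ < 1) (R1 : R0 < 1) (M : ℕ) : ∀ η, 0 < η → η < c →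
    ∃ C' f', St P C' f' (ε + η) β ((2 / 3) ^ (M + 1)) ρ O ∧ ∀ x, ‖x‖ ≤ R0 → ‖f' x - f x‖ ≤ η := by
  induction M with
  | zero => exact fun η a b => by simpa using level S ρ0 ρ1 a b R1
  | succ M ih =>
  intro η a b
  obtain ⟨C, f', S, k⟩ := ih (η / 2) (by linarith) (by linarith)
  obtain ⟨C, f'', S, k'⟩ := level S ρ0 ρ1 (half_pos a) (by linarith) R1
  exact ⟨C, f'', by simpa [add_assoc, pow_succ'] using S, fun x h => by
    linarith [k x h, k' x h, norm_sub_le_norm_sub_add_norm_sub (f'' x) (f' x) (f x)]⟩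

lemma swap (S : St P C f ε β κ ρ O) (ρ0 : 0 ≤ ρ) (ρ1 : ρ < 1) (R1 : R0 < 1) {β' : ℝ} (b : β' ≤ β * (1 - κ)) :
    ∃ O' R, IsCompact O' ∧ O' ⊆ O ∧ R0 ≤ R ∧ ρ ≤ R ∧ R < 1 ∧ (∀ ρ, St C ∅ f ε β' 1 ρ O') ∧ ∀ x ∈ O', ‖x‖ = 1 →
      (∃ r ∈ Icc ρ R, c - ε < ‖f ((r : ℂ) • x)‖) ∧ ∃ r ∈ Icc ρ R, ‖f ((r : ℂ) • x)‖ < ε := by
  classical
  obtain ⟨R, R2, hR⟩ := S.b
  obtain ⟨t, t1, H⟩ := S.u
  have sb : C ∪ ∅ ⊆ P ∪ C := by simp
  have cf {r : ℝ} {x : E} (h : r ∈ Icc 0 1) (k : ‖x‖ = 1) : ContinuousAt f ((r : ℂ) • x) :=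
    (S.d _ (by simpa [norm_smul, k, abs_of_nonneg h.1] using h.2)).1.continuousAt
  obtain ⟨r, ⟨hr, r0⟩, r1⟩ := ((((C.eventually_all.2 fun D k => (γc D).eventually_forall_of_forall_eventually
    (P := fun (r : ℝ) x => ‖f ((r : ℂ) • x)‖ < ε) (x₀ := 1) fun x a => ((cf ⟨zero_le_one, le_rfl⟩ a.1).comp_of_eq
      (f := fun z : ℝ × E => (z.1 : ℂ) • z.2) (by fun_prop) rfl).norm.eventually_lt_const
        (by simpa using S.s D (Finset.mem_union_right _ k) x a)).and (lt_mem_nhds (max_lt (max_lt R1 R2) ρ1))).filter_mono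
          nhdsWithin_le_nhds).and (self_mem_nhdsWithin (s := Iio 1))).exists
  simp only [max_lt_iff] at r0
  obtain ⟨L, a, u, v⟩ := exists_compact_between (C.isCompact_biUnion fun D _ => γc D) (isOpen_interior
    (s := O ∩ {x | (∃ s ∈ Icc ρ r, c - ε < ‖f ((s : ℂ) • x)‖) ∧ ‖f ((r : ℂ) • x)‖ < ε})) (iUnion₂_subset fun D k =>
      subset_interior_iff_mem_nhdsSet.2 (inter_mem (S.o D (Finset.mem_union_right _ k)) (mem_nhdsSet_iff_forall.2
        fun x a => by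
          obtain ⟨s, p, q⟩ := hR D k x a
          exact ((((cf ⟨ρ0.trans p.1, p.2.trans R2.le⟩ a.1).comp_of_eq (f := fun x => (s : ℂ) • x) (by fun_prop)
            rfl).norm.eventually_const_lt q).mono fun y e => ⟨s, ⟨p.1, p.2.trans r0.1.2.le⟩, e⟩).and
              (((cf ⟨ρ0.trans r0.2.le, r1.le⟩ a.1).comp_of_eq (f := fun x => (r : ℂ) • x) (by fun_prop)
                rfl).norm.eventually_lt_const (hr D k x a)))))
  refine ⟨L, r, a, fun x k => (interior_subset (v k)).1, r0.1.1.le, r0.2.le, r1, fun ρ => ⟨fun D k => S.v D (sb k),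
    S.j.subset (Finset.coe_subset.2 sb), fun D k => subset_interior_iff_mem_nhdsSet.1 ((subset_biUnion_of_mem
      (u := γ) (by simpa using k)).trans u), S.d, fun D k => S.s D (sb k), ⟨0, one_pos, by simp⟩, t, t1,
        fun h p a a' a0 _ _ k => le_trans (by nlinarith) (H h p 0 a le_rfl a0 k fun D k μ q => p.2 _
          ((pt1 (S.v D (Finset.mem_union_left _ k))).1.1 (q.trans_lt t1)).le)⟩, fun x k _ =>
    ⟨(interior_subset (v k)).2.1, r, ⟨r0.2.le, le_rfl⟩, (interior_subset (v k)).2.2⟩⟩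

end Pool.Agent.H.MP_9f272e_an
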